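import Mathlib
import Pool.Agent.R440.TQ.Main

/-!
# Products of harmonic Toeplitz operators on polyanalytic Bergman spaces

Definitions in `Pool/Agent/R440/TP` used in the statement:

* `dA` : the normalised area measure `(1/π) dx dy` on the open unit disc;
* `dbar φ = (∂φ/∂x + i ∂φ/∂y) / 2`;
* `IsPoly n h` : `∫ h · (∂/∂z̄)ⁿ φ dA = 0` for all smooth `φ` with compact support in the disc,
  i.e. `∂ⁿh/∂z̄ⁿ = 0` in the sense of distributions.

Proof. Let `n = r + 2`, `v = p + q̄`, `u = p' + q̄'` with `p, q, p', q'` analytic, `q(0) = 0`, and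
suppose `q ≠ 0`; let `c z^{s+1}` be the first non-zero term of `q`. Put `h₁ = z^s z̄^{r+1}`,
`h₂ = z^k z̄^r`; then `h₁, z h₁, h₂, z̄ h₂` are in `A²ₙ` and
`⟪h₂, T_F (z h₁)⟫ = ∫ F z h₁ h̄₂ dA = ⟪z̄ h₂, T_F h₁⟫`. For `e` in `A²ₙ` the mode
`V_m(t) = ∫ e z^m dθ/2π` on the circle `|z|² = t` vanishes for `m ≥ n` and is `β t^{n-1}` for
`m = n - 1`. By the first fact `T_v h₁ = p h₁`, and `z p h₁` is again in `A²ₙ`; so with
`B = T_ū h₂` the identity above for `T_F = T_u T_v` becomes `∫ B̄ v z h₁ dA = ∫ B̄ p z h₁ dA`, i.e.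
`∫ B q z̄^{s+1} z^{r+1} dA = 0`, and by both facts the left side is `c β / (s + r + 3)`. So `β = 0`
for `B`, which gives `0 = ∫ B z^{r+1} dA = ⟪z̄^{r+1}, T_ū h₂⟫ = ∫ ū z^{k+r+1} z̄^r dA`, that is, the
coefficient of `z^{k+1}` in `p'` is zero. This holds for all `k ≥ 0`, so `ū` is analytic.
-/

set_option autoImplicit false

namespace Pool.Agent.Results.MP_70342b_an.HarmonicProducts

open MeasureTheory Pool.Agent.R440.TP
open scoped ENNReal

/-- The Hilbert space `L²(dA)` of the unit disc. -/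
def L2D : Type := Lp ℂ 2 dA

noncomputable instance : NormedAddCommGroup L2D :=
  (inferInstance : NormedAddCommGroup (Lp ℂ 2 dA))

noncomputable instance : InnerProductSpace ℂ L2D :=
  (inferInstance : InnerProductSpace ℂ (Lp ℂ 2 dA))

instance : CompleteSpace L2D := (inferInstance : CompleteSpace (Lp ℂ 2 dA))

/-- an element of `L²(dA)` as a function (defined up to null sets) -/
noncomputable def fn (h : L2D) : ℂ → ℂ := ((show Lp ℂ 2 dA from h : Lp ℂ 2 dA) : ℂ → ℂ)

theorem d_zero (n : ℕ) : IsPoly n (fn 0) := isPoly_zero n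

theorem d_add (n : ℕ) {a b : L2D} (ha : IsPoly n (fn a)) (hb : IsPoly n (fn b)) :
    IsPoly n (fn (a + b)) := isPoly_add ha hb

theorem d_smul (n : ℕ) (c : ℂ) {a : L2D} (ha : IsPoly n (fn a)) :
    IsPoly n (fn (c • a)) := isPoly_smul c ha

/-- The polyanalytic Bergman space `A²ₙ`: all `h` in `L²(dA)` with `∂ⁿh/∂z̄ⁿ = 0` in the sense of
distributions. -/
def A2D (n : ℕ) : Submodule ℂ L2D where
  carrier := {h | IsPoly n (fn h)}
  zero_mem' := d_zero n
  add_mem' := d_add n
  smul_mem' := fun c _ h => d_smul n c h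

theorem A2D_closed (n : ℕ) : IsClosed (A2D n : Set L2D) := isClosed_A2 n

noncomputable instance (n : ℕ) : CompleteSpace (A2D n) := (A2D_closed n).completeSpace_coe

/-- the product `f h` of a bounded function and a function in `L²(dA)` -/
noncomputable def mulD (f : ℂ → ℂ) (hf : MemLp f ∞ dA) (h : L2D) : L2D :=
  (mul_top hf (Lp.memLp (show Lp ℂ 2 dA from h))).toLp (fun z => f z * fn h z)

/-- the Toeplitz operator `T_f h = Pₙ (f h)` on `A²ₙ`, where `Pₙ` is the orthogonal projection of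
`L²(dA)` onto `A²ₙ` -/
noncomputable def toeplitz (n : ℕ) (f : ℂ → ℂ) (hf : MemLp f ∞ dA) (h : A2D n) : A2D n :=
  (A2D n).orthogonalProjectionOnto (mulD f hf h)

theorem toeplitz_eq (n : ℕ) (f : ℂ → ℂ) (hf : MemLp f ∞ dA) (h : A2D n) :
   toeplitz n f hf h = (show A2D n from toep n f hf (show A2 n from h)) := rfl

/-- Q1 has the answer yes: for every `n ≥ 2`, all bounded harmonic functions `u`, `v` on the disc
and every bounded measurable `F`, if `T_u T_v = T_F` on the polyanalytic Bergman space `A²ₙ`, then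
the complex conjugate of `u` is analytic on the disc or `v` is analytic on the disc. -/
theorem result (n : ℕ) (hn : 2 ≤ n) (u v F : ℂ → ℂ) (hu : MemLp u ∞ dA) (hv : MemLp v ∞ dA)
    (hF : MemLp F ∞ dA)
    (hhu : InnerProductSpace.HarmonicOnNhd u (Metric.ball 0 1))
    (hhv : InnerProductSpace.HarmonicOnNhd v (Metric.ball 0 1))
    (hT : ∀ h, toeplitz n u hu (toeplitz n v hv h) = toeplitz n F hF h) :
    DifferentiableOn ℂ (fun z => (starRingEnd ℂ) (u z)) (Metric.ball 0 1) ∨
      DifferentiableOn ℂ v (Metric.ball 0 1) :=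
  Pool.Agent.R440.TQ.harm_main hn hu hv hF hhu hhv
    (fun h => hT (show A2D n from h))

end Pool.Agent.Results.MP_70342b_an.HarmonicProducts
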